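import Pool.Agent.Results.MP_629a14_nt.EvensNearRealSequences
import Pool.Agent.Q319.DR.Fam
import Pool.Agent.Q56.DR.Seq

/-!
# Goldbach representation numbers of all even integers at multiples and dilates of almost all real numbers

* For `0 < θ < 1` there is `κ₀ > 0` such that for all real `y ∈ [N ^ (1 - θ), 2 N ^ (1 - θ)]` outside a set of measure
  at most `N ^ (1 - θ - κ₀)` ALL even integers in the windows of radius `log ^ A N` around the multiples `k y`,
  `k ≤ N ^ θ`, with at most `N ^ θ / log ^ U N` exceptional `k`, are good.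
* For an arbitrary sequence `b` of natural numbers with `b k ≥ k ^ c` and for almost every real `α > 0` ALL even integers
  in the windows of radius `log ^ A (b k)` around the numbers `α b k` are good, for all `k ≤ K` with at most
  `K / log ^ U K` exceptions (for all large `K`).
* If `b k ≥ exp (k ^ δ)` this holds for ALL large `k`.

From Mathlib: `n.primeFactors`: the set of the prime divisors of `n`; `Nat.totient`: Euler's function; `volume`: the
Lebesgue measure; `∀ᵐ α : ℝ`: for almost all real `α`; `∀ᶠ k in atTop`: for all large `k`. The theorem about almost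
all even numbers is from the starting files (`Pool.Agent.TH935.GF.fam_win`), as well as the count of the elements of
arbitrary sets of integers in intervals at multiples of real numbers (`Pool.Agent.H438R2.DL`).
-/

set_option autoImplicit false

namespace Pool.Agent.Results.MP_629a14_nt.EvensAtRealMultiples

open Finset MeasureTheory Filter

/-- The twin prime constant `C₂ = ∏_{p > 2} (1 - 1 / (p - 1) ^ 2)`: the infimum of the decreasing partial products
over the primes `3 ≤ p ≤ z`. -/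
noncomputable def C₂ : ℝ := ⨅ z : ℕ, ∏ p ∈ (Icc 3 z).filter Nat.Prime, (1 - 1 / ((p : ℝ) - 1) ^ 2)

/-- The singular series `2 C₂ ∏_{p ∣ n, p > 2} (p - 1) / (p - 2)`. -/
noncomputable def sing (n : ℕ) : ℝ :=
  2 * C₂ * ∏ p ∈ n.primeFactors.filter (fun p => 2 < p), ((p : ℝ) - 1) / ((p : ℝ) - 2)

/-- The number of the primes `p` with `y₁ < p ≤ y₂` such that `n - p` is a prime. -/
def reps (n y₁ y₂ : ℕ) : ℕ := ((Ioc y₁ y₂).filter (fun p => p.Prime ∧ (n - p).Prime)).card

/-- The even integer `n` is good: (1) in every interval `(y₁, y₂]` with `y₂ ≤ n` of length at least `n / log ^ V n`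
the number of the primes `p` such that `n - p` is a prime agrees with the prediction of Hardy and Littlewood up to a
relative error of at most `ε`; (2) the number `r₂(n)` of the representations of `n` as a sum of two primes lies
between `(1 - ε) C₂` and `1 + ε` times `n² / (φ(n) log² n)`. -/
def Good (ε : ℝ) (V n : ℕ) : Prop :=
  (∀ y₁ y₂ : ℕ, y₁ < y₂ → y₂ ≤ n → (n : ℝ) / Real.log n ^ V ≤ (y₂ : ℝ) - y₁ →
    |(reps n y₁ y₂ : ℝ) - sing n * ((y₂ : ℝ) - y₁) / Real.log n ^ 2| ≤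
      ε * (sing n * ((y₂ : ℝ) - y₁) / Real.log n ^ 2)) ∧
  (1 - ε) * C₂ * ((n : ℝ) ^ 2 / (n.totient * Real.log n ^ 2)) ≤ reps n 0 n ∧
  (reps n 0 n : ℝ) ≤ (1 + ε) * ((n : ℝ) ^ 2 / (n.totient * Real.log n ^ 2))

/-- All positive even integers at a distance of at most `w` from the real number `x` are good. -/
def AllGood (ε : ℝ) (V : ℕ) (w x : ℝ) : Prop := ∀ n : ℕ, 0 < n → Even n → |(n : ℝ) - x| ≤ w → Good ε V n

open Classical in
/-- The number of the `k` in `{1, ..., K}` which do not have the property `P`. -/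
noncomputable def exceptions (K : ℕ) (P : ℕ → Prop) : ℕ := ((Icc 1 K).filter (fun k => ¬ P k)).card

lemma good_iff (ε : ℝ) (V n : ℕ) :
    Good ε V n ↔ Pool.Agent.Results.MP_629a14_nt.EvensNearRealSequences.Good ε V n := Iff.rfl

lemma sparse (ε : ℝ) (hε : 0 < ε) (V : ℕ) :
    Pool.Agent.Q319.DR.Sparse (fun _ n => 0 < n ∧ Even n ∧ ¬ Good ε V n) := by
  classical
  apply Pool.Agent.Q319.DR.sparse_own
  intro U
  obtain ⟨N₀, h0⟩ := Pool.Agent.Results.MP_629a14_nt.EvensNearRealSequences.general 1 1 0 V U le_rfl ε hε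
  refine ⟨N₀, fun N hN S hS hSb => ?_⟩
  have h1 := h0 N hN (Fin N) (Pool.Agent.Q319.DR.idf N) (fun i => by
    rw [Nat.cast_one, one_mul]
    exact (le_abs_self _).trans (Pool.Agent.Q319.DR.idf_abs N i)) (by
    have h2 : Pool.Agent.TH935.GF.En 1 (Pool.Agent.Q319.DR.idf N) = N := Pool.Agent.Q319.DR.energy_idf N
    rw [h2, Fintype.card_fin, pow_zero, one_mul]
    apply le_of_eq
    ring) (univ.filter (fun i : Fin N => 0 < Pool.Agent.Q319.DR.idf N i ∧ Even (Pool.Agent.Q319.DR.idf N i) ∧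
      ¬ Good ε V (Pool.Agent.Q319.DR.idf N i).toNat)) (fun i hi => (mem_filter.1 hi).2)
  rw [Fintype.card_fin] at h1
  refine le_trans ?_ h1
  apply Nat.cast_le.2
  refine (Pool.Agent.Q319.DR.set_of_fam N (fun a => 0 < a ∧ Even a ∧ ¬ Good ε V a.toNat) S hS ?_)
  intro q hq
  obtain ⟨_, h3, h4, h5⟩ := hSb q hq
  refine ⟨by exact_mod_cast h3, by exact_mod_cast h4, ?_⟩
  rw [Int.toNat_natCast]
  exact h5

/-- Let good mean: in every interval `(y₁, y₂]` with `y₂ ≤ n` and of length at least `n / log ^ V n` the number of the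
primes `p` for which `n - p` is a prime is `𝔖(n) (y₂ - y₁) / log ^ 2 n` up to a relative error of at most `ε`, and
`r₂(n)` is between `(1 - ε) C₂` and `1 + ε` times `n² / (φ(n) log² n)`.

* Let `0 < θ < 1`. There is `κ₀ > 0` such that for all `A`, `V`, `U`, `ε > 0` and all large `N` there is a set `E` of
  real numbers of measure at most `N ^ (1 - θ - κ₀)` such that for all `y ∉ E` with
  `N ^ (1 - θ) ≤ y ≤ 2 N ^ (1 - θ)`: for all `k ≤ N ^ θ`, with at most `N ^ θ / log ^ U N` exceptions, ALL even integers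
  `n > 0` with `|n - k y| ≤ log ^ A N` are good.
* Let `b` be an arbitrary sequence of natural numbers with `b k ≥ k ^ c` for all large `k`, where `c > 0`. For almost
  every real number `α > 0` the following holds for all `A`, `V`, `U` and `j`: for all large `K` and for all `k ≤ K`
  with at most `K / log ^ U K` exceptions ALL even integers `n > 0` with `|n - α b k| ≤ log ^ A (b k)` are good with
  `ε = 1 / (j + 1)`.
* Let `b k ≥ exp (k ^ δ)` for all large `k`, where `δ > 0`. For almost every real number `α > 0` and all `A`, `V`, `j`: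
  for ALL large `k` ALL even integers `n > 0` with `|n - α b k| ≤ log ^ A (b k)` are good with `ε = 1 / (j + 1)`. -/
theorem result :
    (∀ θ : ℝ, 0 < θ → θ < 1 → ∃ κ₀ : ℝ, 0 < κ₀ ∧ ∀ (A V U : ℕ) (ε : ℝ), 0 < ε → ∃ N₀ : ℕ, ∀ N : ℕ, N₀ ≤ N →
      ∃ E : Set ℝ, MeasurableSet E ∧ volume E ≤ ENNReal.ofReal ((N : ℝ) ^ (1 - θ - κ₀)) ∧
        ∀ y : ℝ, (N : ℝ) ^ (1 - θ) ≤ y → y ≤ 2 * (N : ℝ) ^ (1 - θ) → y ∉ E →
          (exceptions ⌊(N : ℝ) ^ θ⌋₊ (fun k => AllGood ε V (Real.log N ^ A) (k * y)) : ℝ) ≤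
            (N : ℝ) ^ θ / Real.log N ^ U) ∧
    (∀ (b : ℕ → ℕ) (c : ℝ), 0 < c → (∀ᶠ k : ℕ in atTop, (k : ℝ) ^ c ≤ b k) →
      ∀ᵐ α : ℝ, 0 < α → ∀ A V U j : ℕ, ∀ᶠ K : ℕ in atTop,
        (exceptions K (fun k => AllGood (1 / ((j : ℝ) + 1)) V (Real.log (b k) ^ A) (α * b k)) : ℝ) ≤
          K / Real.log K ^ U) ∧
    (∀ (b : ℕ → ℕ) (δ : ℝ), 0 < δ → (∀ᶠ k : ℕ in atTop, Real.exp ((k : ℝ) ^ δ) ≤ b k) →
      ∀ᵐ α : ℝ, 0 < α → ∀ A V j : ℕ, ∀ᶠ k : ℕ in atTop,
        AllGood (1 / ((j : ℝ) + 1)) V (Real.log (b k) ^ A) (α * b k)) := by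
  classical
  refine ⟨?_, ?_, ?_⟩
  · intro θ hθ hθ1
    obtain ⟨κ₀, hκ₀, h⟩ := Pool.Agent.Q319.DR.mult_few θ hθ hθ1
    refine ⟨κ₀, hκ₀, fun A V U ε hε => ?_⟩
    obtain ⟨N₀, h0⟩ := h _ (sparse ε hε V) A U
    refine ⟨N₀, fun N hN => ?_⟩
    obtain ⟨E, hE1, hE2, hE3⟩ := h0 N hN
    refine ⟨E, hE1, hE2, fun y hy1 hy2 hyE => le_trans ?_ (hE3 y hy1 hy2 hyE)⟩
    unfold exceptions
    apply Nat.cast_le.2
    apply card_le_card
    intro k hk
    rw [mem_filter] at hk ⊢
    obtain ⟨hk1, hk2⟩ := hk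
    unfold AllGood at hk2
    push Not at hk2
    obtain ⟨n, hn0, hn1, hn2, hn3⟩ := hk2
    exact ⟨hk1, n, hn2, hn0, hn1, hn3⟩
  · intro b c hc hb
    have h1 : ∀ᵐ α : ℝ, ∀ A V U j : ℕ, 0 < α → ∀ᶠ K : ℕ in atTop,
        (Pool.Agent.Q56.DR.cnt (fun _ n => 0 < n ∧ Even n ∧ ¬ Good (1 / ((j : ℝ) + 1)) V n) A b α K : ℝ) ≤
          K / Real.log K ^ U := by
      rw [ae_all_iff]
      intro A
      rw [ae_all_iff]
      intro V
      rw [ae_all_iff]
      intro U
      rw [ae_all_iff]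
      intro j
      exact Pool.Agent.Q56.DR.seq_few _ (sparse (1 / ((j : ℝ) + 1)) (by positivity) V) A U b c hc hb
    filter_upwards [h1] with α hα hα0 A V U j
    filter_upwards [hα A V U j hα0] with K hK
    refine le_trans ?_ hK
    unfold exceptions Pool.Agent.Q56.DR.cnt
    apply Nat.cast_le.2
    apply card_le_card
    intro k hk
    rw [mem_filter] at hk ⊢
    obtain ⟨hk1, hk2⟩ := hk
    unfold AllGood at hk2
    push Not at hk2
    obtain ⟨n, hn0, hn1, hn2, hn3⟩ := hk2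
    exact ⟨hk1, n, hn2, hn0, hn1, hn3⟩
  · intro b δ hδ hb
    have h1 : ∀ᵐ α : ℝ, ∀ V : ℕ, 0 < α → ∀ A j : ℕ, ∀ᶠ k : ℕ in atTop,
        ∀ n : ℕ, |(n : ℝ) - α * b k| ≤ Real.log (b k) ^ A → ¬ (0 < n ∧ Even n ∧ ¬ Good (1 / ((j : ℝ) + 1)) V n) := by
      rw [ae_all_iff]
      intro V
      exact Pool.Agent.Q319.DR.lac_all_count (fun j _ n => 0 < n ∧ Even n ∧ ¬ Good (1 / ((j : ℝ) + 1)) V n) (fun j =>
        sparse (1 / ((j : ℝ) + 1)) (by positivity) V) b δ hδ hb
    filter_upwards [h1] with α hα hα0 A V j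
    filter_upwards [hα V hα0 A j] with k hk n hn0 hn1 hn2
    by_contra hcon
    exact hk n hn2 ⟨hn0, hn1, hcon⟩

end Pool.Agent.Results.MP_629a14_nt.EvensAtRealMultiples
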