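import Pool.Agent.TH935.GF
import Pool.Agent.TH894.SM0
import Pool.Agent.Q56.TF.Typ
import Pool.Agent.Q56.TF.Ord

/-!
# Goldbach representation numbers of all even integers in windows around almost all members of a real sequence

The integers are all the even integers at a distance of at most `log ^ A N` from `r m`, for almost all `m ≤ x`,
where `r 1, ..., r x` is an arbitrary family of real numbers of nearly minimal energy; for instance the (real)
values `β + κ f m` of a polynomial `f` with integer coefficients, with arbitrary real `κ ≠ 0` and `β`, or of a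
generalised polynomial `f t = ∑ w_y t ^ y` whose largest exponent is greater than `1` and not an integer
(`f t = t ^ c`: the sequences of Piatetski-Shapiro).

From Mathlib: `n.primeFactors`: the set of the prime divisors of `n`; `Nat.totient`: Euler's function;
`Polynomial ℤ`, `f.eval m`: polynomials and their values; `Finset.Ioc y₁ y₂`: the integers `p` with `y₁ < p ≤ y₂`.
The asymptotic formula for families of integers is from the starting files (`Pool.Agent.TH935.GF.fam_win`), as are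
the inequalities for the singular series (`Pool.Agent.TH894.SM.sing_tot`).
-/

set_option autoImplicit false

namespace Pool.Agent.Results.MP_629a14_nt.EvensNearRealSequences

open Finset

open Classical in
/-- The energy of order `p` of the family of real numbers `r 1, ..., r x`: the number of the pairs `v`, `w` of
`p`-tuples of elements of `{1, ..., x}` such that `r (v 1) + ... + r (v p)` and `r (w 1) + ... + r (w p)` differ
by at most `1`. -/
noncomputable def energy (p x : ℕ) (r : ℕ → ℝ) : ℕ :=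
  (((Fintype.piFinset fun _ : Fin p => Icc 1 x) ×ˢ (Fintype.piFinset fun _ : Fin p => Icc 1 x)).filter
    (fun q => |∑ i, r (q.1 i) - ∑ i, r (q.2 i)| ≤ 1)).card

/-- The twin prime constant `C₂ = ∏_{p > 2} (1 - 1 / (p - 1) ^ 2)`: the infimum of the decreasing partial products
over the primes `3 ≤ p ≤ z`. -/
noncomputable def C₂ : ℝ := ⨅ z : ℕ, ∏ p ∈ (Icc 3 z).filter Nat.Prime, (1 - 1 / ((p : ℝ) - 1) ^ 2)

/-- The singular series `2 C₂ ∏_{p ∣ n, p > 2} (p - 1) / (p - 2)`. -/
noncomputable def sing (n : ℕ) : ℝ :=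
  2 * C₂ * ∏ p ∈ n.primeFactors.filter (fun p => 2 < p), ((p : ℝ) - 1) / ((p : ℝ) - 2)

/-- The number of the primes `p` with `y₁ < p ≤ y₂` such that `n - p` is a prime. -/
def reps (n y₁ y₂ : ℕ) : ℕ := ((Ioc y₁ y₂).filter (fun p => p.Prime ∧ (n - p).Prime)).card

/-- The even integer `n` is good: (1) in every interval `(y₁, y₂]` with `y₂ ≤ n` of length at least `n / log ^ V n`
the number of the primes `p` such that `n - p` is a prime agrees with the prediction of Hardy and Littlewood up to a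
relative error of at most `ε`; (2) the number `r₂(n)` of the representations of `n` as a sum of two primes lies
between `(1 - ε) C₂` and `1 + ε` times `n² / (φ(n) log² n)`. -/
def Good (ε : ℝ) (V n : ℕ) : Prop :=
  (∀ y₁ y₂ : ℕ, y₁ < y₂ → y₂ ≤ n → (n : ℝ) / Real.log n ^ V ≤ (y₂ : ℝ) - y₁ →
    |(reps n y₁ y₂ : ℝ) - sing n * ((y₂ : ℝ) - y₁) / Real.log n ^ 2| ≤
      ε * (sing n * ((y₂ : ℝ) - y₁) / Real.log n ^ 2)) ∧
  (1 - ε) * C₂ * ((n : ℝ) ^ 2 / (n.totient * Real.log n ^ 2)) ≤ reps n 0 n ∧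
  (reps n 0 n : ℝ) ≤ (1 + ε) * ((n : ℝ) ^ 2 / (n.totient * Real.log n ^ 2))

open Classical in
/-- The number of the `m` in `{1, ..., x}` for which not all positive even integers `n` at a distance of at most `w`
from `r m` have the property `G`. -/
noncomputable def exceptions (x : ℕ) (r : ℕ → ℝ) (w : ℝ) (G : ℕ → Prop) : ℕ :=
  ((Icc 1 x).filter (fun m => ∃ n : ℕ, 0 < n ∧ Even n ∧ |(n : ℝ) - r m| ≤ w ∧ ¬ G n)).card

/-- The bound at scale `N` for the windows around the `r m`, `m ≤ x`: for all `m ≤ x` with at most `x / log ^ U N`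
exceptions all positive even integers `n` with `|n - r m| ≤ log ^ A N` are good. -/
def Holds (ε : ℝ) (A V U N x : ℕ) (r : ℕ → ℝ) : Prop :=
  (exceptions x r (Real.log N ^ A) (Good ε V) : ℝ) ≤ x / Real.log N ^ U

/-- The sequence `f`, of growth `x ^ e`, has the property at all large scales: for all `x` with
`N / log ^ C N ≤ x ^ e ≤ B N` and all translates `β + f m`, `|β| ≤ B N`. -/
def Sequence (ε : ℝ) (A B C V U : ℕ) (f : ℕ → ℝ) (e : ℝ) : Prop :=
  ∃ N₀ : ℕ, ∀ N : ℕ, N₀ ≤ N → ∀ x : ℕ, (x : ℝ) ^ e ≤ B * N → (N : ℝ) ≤ Real.log N ^ C * (x : ℝ) ^ e →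
    ∀ β : ℝ, |β| ≤ B * N → Holds ε A V U N x (fun m => β + f m)

lemma C₂_nonneg : 0 ≤ C₂ := by
  unfold C₂
  apply Real.iInf_nonneg
  intro z
  apply prod_nonneg
  intro p hp
  rw [mem_filter, mem_Icc] at hp
  exact (Pool.Agent.TH894.SM.fac_pos p hp.1.1).le

lemma good_of (ε : ℝ) (V n : ℕ) (hn : 2 ≤ n) (hlog : 1 ≤ Real.log n) (h2 : 2 ∣ n) (hε : 0 < ε)
    (h : Pool.Agent.W93.PG.WinP ε V n) : Good ε V n := by
  have hn0 : n ≠ 0 := by omega
  have hnr : (0 : ℝ) < n := by exact_mod_cast Nat.pos_of_ne_zero hn0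
  have hl : 0 < Real.log n := by linarith
  have ht : (0 : ℝ) < n.totient := by exact_mod_cast Nat.totient_pos.2 (Nat.pos_of_ne_zero hn0)
  obtain ⟨s1, s2⟩ := Pool.Agent.TH894.SM.sing_tot n hn0 h2
  have hC := C₂_nonneg
  have hR : ∀ y₁ y₂, Pool.Agent.W93.PG.cnt n y₁ y₂ = reps n y₁ y₂ := fun _ _ => rfl
  have h1 := h 0 n (Nat.pos_of_ne_zero hn0) le_rfl (by
    push_cast
    rw [sub_zero]
    exact div_le_self hnr.le (one_le_pow₀ hlog))
  rw [hR] at h1
  push_cast at h1
  rw [sub_zero] at h1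
  have hs : Pool.Agent.H560R3.GB.sing n = sing n := rfl
  have hs2 : Pool.Agent.H560R3.GB.C₂ = C₂ := rfl
  rw [hs] at h1 s1 s2
  rw [hs2] at s1
  obtain ⟨Q, hQ⟩ : ∃ Q : ℝ, Q = n / Real.log n ^ 2 := ⟨_, rfl⟩
  have hQ0 : 0 < Q := by rw [hQ]; positivity
  have e : (n : ℝ) ^ 2 / (n.totient * Real.log n ^ 2) = n / n.totient * Q := by
    rw [hQ]
    field_simp
  have hHL : sing n * (n : ℝ) / Real.log n ^ 2 = sing n * Q := by
    rw [hQ, mul_div_assoc]
  have hR0 : 0 < (n : ℝ) / n.totient := by positivity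
  rw [hHL, abs_le] at h1
  refine ⟨h, ?_, ?_⟩
  · rw [e]
    rcases le_or_gt ε 1 with hε1 | hε1
    · have h3 : (1 - ε) * (C₂ * (n / n.totient) * Q) ≤ (1 - ε) * (sing n * Q) := by
        apply mul_le_mul_of_nonneg_left _ (by linarith)
        exact mul_le_mul_of_nonneg_right s1 hQ0.le
      have e2 : (1 - ε) * C₂ * (n / n.totient * Q) = (1 - ε) * (C₂ * (n / n.totient) * Q) := by ring
      rw [e2]
      linarith [h1.1]
    · have h3 : (1 - ε) * C₂ * (n / n.totient * Q) ≤ 0 := by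
        apply mul_nonpos_of_nonpos_of_nonneg _ (by positivity)
        exact mul_nonpos_of_nonpos_of_nonneg (by linarith) hC
      exact h3.trans (Nat.cast_nonneg _)
  · rw [e]
    have h3 : (1 + ε) * (sing n * Q) ≤ (1 + ε) * (n / n.totient * Q) := by
      apply mul_le_mul_of_nonneg_left _ (by linarith)
      exact mul_le_mul_of_nonneg_right s2 hQ0.le
    linarith [h1.2]

/-- families of even integers -/
lemma general (p B C V U : ℕ) (hp : 1 ≤ p) (ε : ℝ) (hε : 0 < ε) :
    ∃ N₀ : ℕ, ∀ N : ℕ, N₀ ≤ N → ∀ (ι : Type) [Fintype ι] (v : ι → ℤ), (∀ i, v i ≤ B * N) →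
      (Pool.Agent.TH935.GF.En p v : ℝ) * N ≤ Real.log N ^ C * (Fintype.card ι : ℝ) ^ (2 * p) →
      ∀ S : Finset ι, (∀ i ∈ S, 0 < v i ∧ Even (v i) ∧ ¬ Good ε V (v i).toNat) →
      (S.card : ℝ) ≤ Fintype.card ι / Real.log N ^ U := by
  obtain ⟨n1, h1⟩ := Pool.Agent.H373R2.T7.ev_L' 1
  exact Pool.Agent.TH935.GF.transfer p B C U (Good ε V)
    (fun B C U => Pool.Agent.TH935.GF.fam_win p B C V U (n1 + 2) hp ε hε (Good ε V)
      (fun m hm h2 hw => good_of ε V m (by omega) (h1 m (by omega)) h2 hε hw))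

lemma holds_of (A B V U p C : ℕ) (hp : 1 ≤ p) (ε : ℝ) (hε : 0 < ε) :
    ∃ N₀ : ℕ, ∀ N : ℕ, N₀ ≤ N → ∀ (x : ℕ) (r : ℕ → ℝ), Pool.Agent.Q56.TF.Near A p B C N x r →
      Holds ε A V U N x r := by
  classical
  obtain ⟨N₁, h1⟩ := general p B C V U hp ε hε
  refine ⟨N₁, fun N hN x r hm => ?_⟩
  refine Pool.Agent.Q56.TF.near_types hm (Q := fun c => 0 < c ∧ Even c ∧ ¬ Good ε V c.toNat)
    (fun ι _ v hv hE S hS => h1 N hN ι v (fun i => (le_abs_self _).trans (hv i)) hE S hS) _ (filter_subset _ _) ?_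
  intro m hm
  obtain ⟨_, n, hn0, hn1, hn2, hn3⟩ := mem_filter.1 hm
  exact ⟨n, by exact_mod_cast hn2, by exact_mod_cast hn0, by exact_mod_cast hn1, by simpa using hn3⟩

lemma sequence_of {f : ℕ → ℝ} {e : ℝ} (h : Pool.Agent.Q56.TF.Base f e) (he : 1 ≤ e) (A B C V U : ℕ) (ε : ℝ)
    (hε : 0 < ε) : Sequence ε A B C V U f e := by
  obtain ⟨p, B', C', N₀, h1⟩ := Pool.Agent.Q56.TF.near_base h he A B C
  obtain ⟨N₁, h2⟩ := holds_of A B' V U (p + 1) C' (by omega) ε hε
  exact ⟨N₀ + N₁, fun N hN x hx1 hx2 β hβ =>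
    h2 N (by omega) x _ ((h1 N (by omega) x hx1 hx2 β hβ).order (by omega))⟩

/-- Let `A`, `B`, `C`, `V`, `U` and `ε > 0` be fixed.

* For every `p` the following holds for all large `N`. Let `r 1, ..., r x` be an arbitrary family of real numbers in
  `[-B N, B N]` with an energy of order `p` of at most `log ^ C N` times `x ^ (2 p) / N` (the minimal possible order
  of magnitude). For all `m ≤ x` with at most `x / log ^ U N` exceptions, ALL positive even integers `n` with
  `|n - r m| ≤ log ^ A N` satisfy: in every interval `(y₁, y₂]` with `y₂ ≤ n` and of length at least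
  `n / log ^ V n` the number of the primes `p` for which `n - p` is a prime is `𝔖(n) (y₂ - y₁) / log ^ 2 n` up to a
  relative error of at most `ε`, and `r₂(n)` is between `(1 - ε) C₂` and `1 + ε` times `n² / (φ(n) log² n)`.
* This holds for `r m = β + κ f m`, `m ≤ x`, where `f` is a fixed nonconstant polynomial with integer
  coefficients, of degree `d`, `κ ≠ 0` is a fixed real number, `β` is any real number with `|β| ≤ B N`, and
  `N / log ^ C N ≤ x ^ d ≤ B N`.
* This holds for `r m = β + ∑ w_y m ^ y` (a sum over a finite set `F` of real exponents `y`), if the largest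
  exponent `e` is greater than `1` and not an integer, `w_e ≠ 0`, `|β| ≤ B N` and `N / log ^ C N ≤ x ^ e ≤ B N`; for
  instance for `r m = β + m ^ e`. -/
theorem result (A B C V U : ℕ) (ε : ℝ) (hε : 0 < ε) :
    (∀ p : ℕ, ∃ N₀ : ℕ, ∀ N : ℕ, N₀ ≤ N → ∀ (x : ℕ) (r : ℕ → ℝ), (∀ m ∈ Icc 1 x, |r m| ≤ B * N) →
      (energy p x r : ℝ) * N ≤ Real.log N ^ C * (x : ℝ) ^ (2 * p) → Holds ε A V U N x r) ∧
    (∀ f : Polynomial ℤ, 1 ≤ f.natDegree → ∀ κ : ℝ, κ ≠ 0 →
      Sequence ε A B C V U (fun m => κ * ((f.eval (m : ℤ) : ℤ) : ℝ)) f.natDegree) ∧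
    (∀ (F : Finset ℝ) (w : ℝ → ℝ) (e : ℝ), e ∈ F → (∀ y ∈ F, y ≤ e) → w e ≠ 0 → 1 < e → (∀ k : ℕ, e ≠ k) →
      Sequence ε A B C V U (fun m => ∑ y ∈ F, w y * (m : ℝ) ^ y) e) := by
  classical
  refine ⟨fun p => ?_, fun f hd κ hκ => ?_, fun F w e heF hmax hwe he hen => ?_⟩
  · obtain ⟨B', C', N₀, h1⟩ := Pool.Agent.Q56.TF.near_gen p A B C
    obtain ⟨N₁, h2⟩ := holds_of A B' V U (p + 1) C' (by omega) ε hε
    exact ⟨N₀ + N₁, fun N hN x r hr hE => h2 N (by omega) x _ ((h1 N (by omega) x r hr hE).order (by omega))⟩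
  · exact sequence_of ((Pool.Agent.Q56.TF.base_poly f hd).dil hκ) (by exact_mod_cast hd) A B C V U ε hε
  · exact sequence_of (Pool.Agent.Q56.TF.base_gp F w e heF hmax hwe he hen) he.le A B C V U ε hε

end Pool.Agent.Results.MP_629a14_nt.EvensNearRealSequences
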