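import Pool.Agent.Q25.GReg
import Pool.Agent.TH935.GF
import Pool.Agent.Q56.TF.Typ
import Pool.Agent.Q56.TF.Ord

/-!
# The local structure of the set of the Goldbach primes of almost all even integers in thin families

For an even number `n` the Goldbach primes of `n` are the primes `p < n` such that `n - p` is a prime. Let `L` be their
average distance `log² n / 𝔖(n)` as predicted by Hardy and Littlewood. We show that for almost all members `n` of
arbitrary thin families, in all windows of length at least `n / log ^ V n`, and for EVERY set `A` of Goldbach primes: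

* all elements of `A`, with at most `δ` times the number of Goldbach primes in the window as exceptions, lie in
  progressions of `k` elements of `A` with a difference of at most `log ^ D n`;
* all elements `p` of `A`, up to the same number of exceptions, are regular points of `A`: ALL intervals around `p` with
  a length between `L / c` and the length `Y` of the window contain the right order of elements of `A`, and, with the
  exception of at most `R` dyadic scales `2 ^ j` between `L` and `Y`, the set `A` has a constant density, up to `η`, on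
  both sides of `p` up to the distance `2 ^ j`.

The families: all even integers at a distance of at most `log ^ G N` from `r m`, `m ≤ x`, where `r` is any family of
real numbers of nearly minimal energy, for instance the values of a polynomial or generalised polynomial.
-/

set_option autoImplicit false

namespace Pool.Agent.Results.MP_629a14_nt.LocalRegularity

open Finset

open Classical in
/-- The energy of order `p` of the family of real numbers `r 1, ..., r x`: the number of the pairs `v`, `w` of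
`p`-tuples of elements of `{1, ..., x}` such that `r (v 1) + ... + r (v p)` and `r (w 1) + ... + r (w p)` differ
by at most `1`. -/
noncomputable def energy (p x : ℕ) (r : ℕ → ℝ) : ℕ :=
  (((Fintype.piFinset fun _ : Fin p => Icc 1 x) ×ˢ (Fintype.piFinset fun _ : Fin p => Icc 1 x)).filter
    (fun q => |∑ i, r (q.1 i) - ∑ i, r (q.2 i)| ≤ 1)).card

/-- The twin prime constant `C₂ = ∏_{p > 2} (1 - 1 / (p - 1) ^ 2)`: the infimum of the decreasing partial products
over the primes `3 ≤ p ≤ z`. -/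
noncomputable def C₂ : ℝ := ⨅ z : ℕ, ∏ p ∈ (Icc 3 z).filter Nat.Prime, (1 - 1 / ((p : ℝ) - 1) ^ 2)

/-- The singular series `2 C₂ ∏_{p ∣ n, p > 2} (p - 1) / (p - 2)`. -/
noncomputable def sing (n : ℕ) : ℝ :=
  2 * C₂ * ∏ p ∈ n.primeFactors.filter (fun p => 2 < p), ((p : ℝ) - 1) / ((p : ℝ) - 2)

/-- The number of the primes `p` with `y₁ < p ≤ y₂` such that `n - p` is a prime. -/
def reps (n y₁ y₂ : ℕ) : ℕ := ((Ioc y₁ y₂).filter (fun p => p.Prime ∧ (n - p).Prime)).card

/-- The primes `p` such that `n - p` is a prime, `p` and `n - p` being larger than the square root of `n`. -/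
def Goldbach (n : ℕ) : Set ℕ := {p | p < n ∧ p.Prime ∧ (n - p).Prime ∧ n < p ^ 2 ∧ n < (n - p) ^ 2}

/-- The predicted average distance `log² n / 𝔖(n)`. -/
noncomputable def L (n : ℕ) : ℝ := Real.log n ^ 2 / sing n

/-! ### progressions -/

/-- `m` is a term of a progression of `k` elements of `S` with a difference in `[1, D]` -/
def InAP (k : ℕ) (D : ℝ) (S : Finset ℕ) (m : ℕ) : Prop :=
  ∃ a d : ℕ, 1 ≤ d ∧ (d : ℝ) ≤ D ∧ (∀ j < k, a + j * d ∈ S) ∧ ∃ j < k, m = a + j * d

open Classical in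
/-- the number of the elements of `S` which do not lie in such progressions -/
noncomputable def isolated (k : ℕ) (D : ℝ) (S : Finset ℕ) : ℕ := (S.filter (fun m => ¬ InAP k D S m)).card

/-! ### regular points -/

open Classical in
/-- the number of the elements of `A` in `(u, v]` -/
noncomputable def N (A : Set ℕ) (u v : ℕ) : ℕ := ((Ioc u v).filter (fun m => m ∈ A)).card

/-- All intervals `(m - s, m + t]` with `s, t ≤ Y` of length at least `L / c` contain the right order of elements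
of `A`. -/
def RightOrder (A : Set ℕ) (L c : ℝ) (Y m : ℕ) : Prop :=
  ∀ s t : ℕ, s ≤ Y → t ≤ Y → L ≤ c * (s + t) →
    c * (s + t) / L ≤ N A (m - s) (m + t) ∧ (N A (m - s) (m + t) : ℝ) ≤ (s + t) / (c * L)

/-- Up to `η`, `A` has a constant density on both sides of `m` up to the distance `2 ^ j`. -/
def ConstantDensity (A : Set ℕ) (L c η : ℝ) (m j : ℕ) : Prop :=
  ∃ lam : ℝ, c ≤ lam ∧ lam ≤ 1 / c ∧ ∀ s t : ℕ, s ≤ 2 ^ j → t ≤ 2 ^ j →
    |(N A (m - s) (m + t) : ℝ) - lam * (s + t) / L| ≤ η * 2 ^ j / L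

open Classical in
/-- the number of the scales `L ≤ 2 ^ j ≤ Y` without this property -/
noncomputable def badScales (A : Set ℕ) (L c η : ℝ) (Y m : ℕ) : ℕ :=
  ((range (Nat.log 2 Y + 1)).filter (fun j => L ≤ (2 : ℝ) ^ j ∧ ¬ ConstantDensity A L c η m j)).card

/-- The elements of `A` that are not regular points of `A`. -/
def Irregular (A : Set ℕ) (L c η : ℝ) (R Y : ℕ) : Set ℕ :=
  {m | m ∈ A ∧ ¬ (RightOrder A L c Y m ∧ badScales A L c η Y m ≤ R)}

/-! ### the property of `n` -/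

/-- The local structure of the Goldbach primes of `n`, in all windows `(u, u + Y]` in `[0, n]` of length at least
`n / log ^ V n`: (1) for every set `S` of primes `p` of the window with `n - p` prime, the number of the elements of `S`
that do not lie in progressions of `k` elements of `S` with a difference `≤ log ^ D n` is at most `δ` times the number
of all primes `p` of the window with `n - p` prime; (2) if `Y ≤ u`, for every subset `A` of `Goldbach n`, the number of
the elements of `A` in the window that are not regular points of `A` is at most `δ` times the same number. -/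
def Local (k D R V : ℕ) (δ c η : ℝ) (n : ℕ) : Prop :=
  (∀ u Y : ℕ, (n : ℝ) / Real.log n ^ V ≤ Y → u + Y ≤ n → ∀ S : Finset ℕ, S ⊆ Ioc u (u + Y) →
    (∀ p ∈ S, p.Prime ∧ (n - p).Prime) → (isolated k (Real.log n ^ D) S : ℝ) ≤ δ * reps n u (u + Y)) ∧
  (∀ A : Set ℕ, A ⊆ Goldbach n → ∀ u Y : ℕ, (n : ℝ) / Real.log n ^ V ≤ Y → Y ≤ u → u + Y ≤ n →
    (N (Irregular A (L n) c η R Y) u (u + Y) : ℝ) ≤ δ * reps n u (u + Y))

open Classical in
/-- The number of the `m` in `{1, ..., x}` for which not all positive even integers `n` at a distance of at most `w`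
from `r m` have the property `Q`. -/
noncomputable def exceptions (x : ℕ) (r : ℕ → ℝ) (w : ℝ) (Q : ℕ → Prop) : ℕ :=
  ((Icc 1 x).filter (fun m => ∃ n : ℕ, 0 < n ∧ Even n ∧ |(n : ℝ) - r m| ≤ w ∧ ¬ Q n)).card

/-- For all `m ≤ x` with at most `x / log ^ U M` exceptions all positive even integers `n` with `|n - r m| ≤ log ^ G M`
have the property `Q`. -/
def AlmostAll (Q : ℕ → Prop) (G U M x : ℕ) (r : ℕ → ℝ) : Prop :=
  (exceptions x r (Real.log M ^ G) Q : ℝ) ≤ x / Real.log M ^ U

/-- The sequence `f`, of growth `x ^ e`, has the property at all large scales `M`: for all `x` with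
`M / log ^ C M ≤ x ^ e ≤ B M` and all translates `β + f m`, `|β| ≤ B M`. -/
def Sequence (Q : ℕ → Prop) (G B C U : ℕ) (f : ℕ → ℝ) (e : ℝ) : Prop :=
  ∃ M₀ : ℕ, ∀ M : ℕ, M₀ ≤ M → ∀ x : ℕ, (x : ℝ) ^ e ≤ B * M → (M : ℝ) ≤ Real.log M ^ C * (x : ℝ) ^ e →
    ∀ β : ℝ, |β| ≤ B * M → AlmostAll Q G U M x (fun m => β + f m)

lemma Irregular_eq (A : Set ℕ) (L c η : ℝ) (R Y : ℕ) :
    Irregular A L c η R Y = Pool.Agent.Y879.GL.Irr A L c η R Y := by
  have hN : N = Pool.Agent.TH977.PW.N := by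
    funext A u v
    unfold N Pool.Agent.TH977.PW.N
    rfl
  unfold Irregular Pool.Agent.Y879.GL.Irr badScales Pool.Agent.Y879.GL.bS RightOrder Pool.Agent.Y879.GL.RO
    ConstantDensity Pool.Agent.Y879.GL.CD
  rw [hN]

/-- the windows give the property -/
lemma local_of (k : ℕ) (hk : 1 ≤ k) (δ : ℝ) (hδ : 0 < δ) : ∃ D : ℕ, ∃ c : ℝ, 0 < c ∧ ∀ η : ℝ, 0 < η → ∃ R : ℕ,
    ∀ V : ℕ, ∃ n₀ : ℕ, ∀ n : ℕ, n₀ ≤ n → 2 ∣ n → Pool.Agent.W93.PG.WinP (1 / 2) V n → Local k D R V δ c η n := by
  obtain ⟨D, h1⟩ := Pool.Agent.Q25.GReg.narrow hk hδ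
  obtain ⟨c, hc, h2⟩ := Pool.Agent.Q25.GReg.regular hδ
  refine ⟨D, c, hc, fun η hη => ?_⟩
  obtain ⟨R, h3⟩ := h2 η hη
  refine ⟨R, fun V => ?_⟩
  obtain ⟨n1, h4⟩ := h1 V
  obtain ⟨n2, h5⟩ := h3 V
  refine ⟨max n1 n2, fun n hn h2n hw => ⟨?_, ?_⟩⟩
  · intro u Y hY huY S hS hSp
    have h6 := h4 n ((le_max_left _ _).trans hn) (even_iff_two_dvd.2 h2n) (1 / 2) le_rfl hw u Y hY huY S hS hSp
    exact h6
  · intro A hA u Y hY hYu huY
    have h6 := h5 n ((le_max_right _ _).trans hn) (even_iff_two_dvd.2 h2n) (1 / 2) le_rfl hw A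
      (fun p hp => hA hp) u Y hY hYu huY
    rw [Irregular_eq]
    exact h6

/-- families of even integers -/
lemma general (p B C V U : ℕ) (hp : 1 ≤ p) (Q : ℕ → Prop)
    (hQ : ∃ n₀ : ℕ, ∀ n : ℕ, n₀ ≤ n → 2 ∣ n → Pool.Agent.W93.PG.WinP (1 / 2) V n → Q n) :
    ∃ M₀ : ℕ, ∀ M : ℕ, M₀ ≤ M → ∀ (ι : Type) [Fintype ι] (v : ι → ℤ), (∀ i, v i ≤ B * M) →
      (Pool.Agent.TH935.GF.En p v : ℝ) * M ≤ Real.log M ^ C * (Fintype.card ι : ℝ) ^ (2 * p) →
      ∀ S : Finset ι, (∀ i ∈ S, 0 < v i ∧ Even (v i) ∧ ¬ Q (v i).toNat) →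
      (S.card : ℝ) ≤ Fintype.card ι / Real.log M ^ U := by
  obtain ⟨n1, h1⟩ := hQ
  exact Pool.Agent.TH935.GF.transfer p B C U Q
    (fun B C U => Pool.Agent.TH935.GF.fam_win p B C V U n1 hp (1 / 2) (by norm_num) Q h1)

lemma holds_of (G B V U p C : ℕ) (hp : 1 ≤ p) (Q : ℕ → Prop)
    (hQ : ∃ n₀ : ℕ, ∀ n : ℕ, n₀ ≤ n → 2 ∣ n → Pool.Agent.W93.PG.WinP (1 / 2) V n → Q n) :
    ∃ M₀ : ℕ, ∀ M : ℕ, M₀ ≤ M → ∀ (x : ℕ) (r : ℕ → ℝ), Pool.Agent.Q56.TF.Near G p B C M x r →
      AlmostAll Q G U M x r := by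
  classical
  obtain ⟨N₁, h1⟩ := general p B C V U hp Q hQ
  refine ⟨N₁, fun M hM x r hm => ?_⟩
  refine Pool.Agent.Q56.TF.near_types hm (Q := fun c => 0 < c ∧ Even c ∧ ¬ Q c.toNat)
    (fun ι _ v hv hE S hS => h1 M hM ι v (fun i => (le_abs_self _).trans (hv i)) hE S hS) _ (filter_subset _ _) ?_
  intro m hm
  obtain ⟨_, n, hn0, hn1, hn2, hn3⟩ := mem_filter.1 hm
  exact ⟨n, by exact_mod_cast hn2, by exact_mod_cast hn0, by exact_mod_cast hn1, by simpa using hn3⟩

lemma sequence_of {f : ℕ → ℝ} {e : ℝ} (h : Pool.Agent.Q56.TF.Base f e) (he : 1 ≤ e) (G B C V U : ℕ) (Q : ℕ → Prop)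
    (hQ : ∃ n₀ : ℕ, ∀ n : ℕ, n₀ ≤ n → 2 ∣ n → Pool.Agent.W93.PG.WinP (1 / 2) V n → Q n) :
    Sequence Q G B C U f e := by
  obtain ⟨p, B', C', N₀, h1⟩ := Pool.Agent.Q56.TF.near_base h he G B C
  obtain ⟨N₁, h2⟩ := holds_of G B' V U (p + 1) C' (by omega) Q hQ
  exact ⟨N₀ + N₁, fun M hM x hx1 hx2 β hβ =>
    h2 M (by omega) x _ ((h1 M (by omega) x hx1 hx2 β hβ).order (by omega))⟩

/-- Let `k ≥ 1` and `δ > 0`. There are `D` and `c > 0`, and for every `η > 0` there is `R`, such that for all `V`, `G`,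
`B`, `C`, `U`:

* For every `p` the following holds for all large `M`. Let `r 1, ..., r x` be an arbitrary family of real numbers in
  `[-B M, B M]` with an energy of order `p` of at most `log ^ C M` times `x ^ (2 p) / M` (the minimal possible order
  of magnitude). For all `m ≤ x` with at most `x / log ^ U M` exceptions, ALL positive even integers `n` with
  `|n - r m| ≤ log ^ G M` have the property `Local k D R V δ c η`.
* This holds for `r m = β + κ f m`, `m ≤ x`, where `f` is a fixed nonconstant polynomial with integer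
  coefficients, of degree `d`, `κ ≠ 0` is a fixed real number, `β` is any real number with `|β| ≤ B M`, and
  `M / log ^ C M ≤ x ^ d ≤ B M`.
* This holds for `r m = β + ∑ w_y m ^ y` (a sum over a finite set `F` of real exponents `y`), if the largest
  exponent `e` is greater than `1` and not an integer, `w_e ≠ 0`, `|β| ≤ B M` and `M / log ^ C M ≤ x ^ e ≤ B M`. -/
theorem result (k : ℕ) (hk : 1 ≤ k) (δ : ℝ) (hδ : 0 < δ) : ∃ D : ℕ, ∃ c : ℝ, 0 < c ∧ ∀ η : ℝ, 0 < η → ∃ R : ℕ,
    ∀ V G B C U : ℕ,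
    (∀ p : ℕ, ∃ M₀ : ℕ, ∀ M : ℕ, M₀ ≤ M → ∀ (x : ℕ) (r : ℕ → ℝ), (∀ m ∈ Icc 1 x, |r m| ≤ B * M) →
      (energy p x r : ℝ) * M ≤ Real.log M ^ C * (x : ℝ) ^ (2 * p) → AlmostAll (Local k D R V δ c η) G U M x r) ∧
    (∀ f : Polynomial ℤ, 1 ≤ f.natDegree → ∀ κ : ℝ, κ ≠ 0 →
      Sequence (Local k D R V δ c η) G B C U (fun m => κ * ((f.eval (m : ℤ) : ℤ) : ℝ)) f.natDegree) ∧
    (∀ (F : Finset ℝ) (w : ℝ → ℝ) (e : ℝ), e ∈ F → (∀ y ∈ F, y ≤ e) → w e ≠ 0 → 1 < e → (∀ j : ℕ, e ≠ j) →
      Sequence (Local k D R V δ c η) G B C U (fun m => ∑ y ∈ F, w y * (m : ℝ) ^ y) e) := by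
  classical
  obtain ⟨D, c, hc, h0⟩ := local_of k hk δ hδ
  refine ⟨D, c, hc, fun η hη => ?_⟩
  obtain ⟨R, hR⟩ := h0 η hη
  refine ⟨R, fun V G B C U => ⟨fun p => ?_, fun f hd κ hκ => ?_, fun F w e heF hmax hwe he hen => ?_⟩⟩
  · obtain ⟨B', C', N₀, h1⟩ := Pool.Agent.Q56.TF.near_gen p G B C
    obtain ⟨N₁, h2⟩ := holds_of G B' V U (p + 1) C' (by omega) _ (hR V)
    exact ⟨N₀ + N₁, fun M hM x r hr hE => h2 M (by omega) x _ ((h1 M (by omega) x r hr hE).order (by omega))⟩
  · exact sequence_of ((Pool.Agent.Q56.TF.base_poly f hd).dil hκ) (by exact_mod_cast hd) G B C V U _ (hR V)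
  · exact sequence_of (Pool.Agent.Q56.TF.base_gp F w e heF hmax hwe he hen) he.le G B C V U _ (hR V)

end Pool.Agent.Results.MP_629a14_nt.LocalRegularity
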