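import Pool.Agent.Q26.PD.LF6
import Pool.Agent.Q26.PD.RS2

/-!
# The order of magnitude of the number of representations of several integers with a common prime summand, for random
sums and for integers with restricted digits

Definitions used (all in `Pool.Agent.Q26.PD.Sys`), for vectors `n, d` of `s` integers:
* `count n d N`: the number of the primes `q ≤ N` for which all `n i + q d i` are (positive) primes; for `d i = -1` these
  are the primes `q ≤ N` for which all `n i` are sums of `q` and another prime;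
* `nu n d p`: the number `ν(p)` of the residues `r` modulo `p` for which `p` divides `r (n 1 + r d 1) ... (n s + r d s)`;
* `Adm n d`: `ν(p) < p` for all primes `p` (there is no local obstruction; for `s = 1`, `d = -1`: `n` is even);
* `sing n d z`: the product over the primes `p ≤ z` of `(1 - ν(p) / p) / (1 - 1 / p) ^ (s + 1)`.
-/

set_option autoImplicit false

namespace Pool.Agent.Results.MP_629a14_nt.RandomSumSystems

open Finset Filter Pool.Agent.Q26.PD.Sys

/-- For ALL integers `d 1, ..., d s` with `1 ≤ |d i| ≤ D` (of both signs) such that the system of equations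
`n i = |d i| q + q i` (if `d i < 0`), `n i = q i - d i q` (if `d i > 0`) in primes `q, q 1, ..., q s` has no local
obstruction, the sum `G` of its singular series is at least `δ₀`, and the number of its solutions with `q ≤ N` is
`G N / log ^ (s + 1) N` up to a relative error of at most `ε`, for all `N` between `X / m` and `X` for which the
`n i + q d i` with `1 ≤ q ≤ N` are positive. -/
def Right {s : ℕ} (δ₀ ε : ℝ) (m X D : ℕ) (n : Fin s → ℤ) : Prop :=
  ∀ d : Fin s → ℤ, (∀ i, d i ≠ 0 ∧ |d i| ≤ (D : ℤ)) → Adm n d →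
    ∃ G : ℝ, δ₀ ≤ G ∧ Tendsto (sing n d) atTop (nhds G) ∧
      ∀ N : ℕ, N ≤ X → X ≤ m * N → (∀ i, 0 < n i + d i ∧ 0 < n i + N * d i) →
        |(count n d N : ℝ) - G * (N / Real.log N ^ (s + 1))| ≤ ε * (G * (N / Real.log N ^ (s + 1)))

/-- The set `J` of scales below `k` is rich: it contains more than three fifths of all the scales, more than one half
of the `m` lowest scales, and a positive proportion of the `m` highest scales (the last two conditions are
void for `m ≤ R log k`). -/
structure Rich (δ : ℝ) (R k : ℕ) (J : Finset ℕ) : Prop where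
  lt : ∀ j ∈ J, j < k
  all : (3 / 5 + δ) * k ≤ (J.card : ℝ)
  low : ∀ m ≤ k, (1 / 2 + δ) * m ≤ ((J.filter fun j => j < m).card : ℝ) + R * Real.log k
  high : ∀ m ≤ k, δ * m ≤ ((J.filter fun j => k - m ≤ j).card : ℝ) + R * Real.log k

open Classical in
/-- The probability of the event `E` if the `x i j`, `i = 1, ..., s`, `0 ≤ j < k i`, are independent random integers, where
`x i j` takes its values in the finite set `S i j`, and the value `x` with the probability `p i j x`. -/
noncomputable def Prob {s : ℕ} (k : Fin s → ℕ) (S : Fin s → ℕ → Finset ℤ) (p : Fin s → ℕ → ℤ → ℝ)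
    (E : (∀ i : Fin s, Fin (k i) → ℤ) → Prop) : ℝ :=
  ∑ x ∈ Fintype.piFinset (fun i => Fintype.piFinset (fun j : Fin (k i) => S i j)),
    if E x then ∏ i, ∏ j : Fin (k i), p i j (x i j) else 0

open Classical in
/-- The integers `v < b ^ k` whose digit at the place `j` in base `b` belongs to `A j` for all `j < k`. -/
noncomputable def withDigits (b k : ℕ) (A : ℕ → Finset ℕ) : Finset ℕ :=
  (range (b ^ k)).filter fun v => ∀ j < k, v / b ^ j % b ∈ A j

open Classical in
/-- Let `s ≥ 1`, `D ≥ 1` and `m ≥ 1` be fixed. There is a `δ₀ > 0` such that the following is true for all bases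
`b i ≥ 2`, `B ≥ 1`, `R`, `U`, `η > 0`, `δ > 0`, `ε > 0` and all sufficiently large `X`. Let `b i ^ k i` be between `X / B` and
`B X`, let `J i` be arbitrary rich sets of scales below `k i`, and let `c i` be arbitrary integers with `|c i| ≤ B X`.
(1) Let the `x i j`, `j < k i`, be arbitrary independent random integers with `|x i j| ≤ B (b i) ^ j` such that, for all `j`
in `J i`, no interval of the length `(b i) ^ j / B` contains `x i j` with a probability larger than `1 - η` (nothing is
assumed for the other `j`: these `x i j` may be constants). Then, with a probability of at least `1 - 1 / log ^ U X`, the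
integers `n i = c i + x i 0 + ... + x i (k i - 1)` have the property `Right`: for ALL small coefficients `d i` of both
signs, the number of the representations with a common prime is of the right order of magnitude, and satisfies the
asymptotic formula of Hardy and Littlewood up to a relative error of at most `ε`. (2) Let `A i j` be arbitrary
nonempty sets of digits in base `b i`, with at least two elements if `j` is in `J i` (the other digits may be
prescribed). Then `n i = c i + v i` have the same property for all vectors `(v 1, ..., v s)` of integers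
`v i < (b i) ^ k i` whose digit at the place `j` belongs to `A i j` for all `j < k i`, with at most
`∏ i, ∏ j, #(A i j) / log ^ U X` exceptions. -/
theorem result (s D m : ℕ) (hs : 1 ≤ s) (hD : 1 ≤ D) (hm : 1 ≤ m) : ∃ δ₀ : ℝ, 0 < δ₀ ∧
    ∀ (b : Fin s → ℕ), (∀ i, 2 ≤ b i) → ∀ (B R U : ℕ) (η δ ε : ℝ), 1 ≤ B → 0 < η → 0 < δ → 0 < ε →
    ∃ X₀ : ℕ, ∀ X, X₀ ≤ X → ∀ k : Fin s → ℕ, (∀ i, X ≤ B * b i ^ k i ∧ b i ^ k i ≤ B * X) →
      ∀ J : Fin s → Finset ℕ, (∀ i, Rich δ R (k i) (J i)) → ∀ c : Fin s → ℤ, (∀ i, |c i| ≤ (B : ℤ) * X) →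
      (∀ (S : Fin s → ℕ → Finset ℤ) (p : Fin s → ℕ → ℤ → ℝ),
        (∀ i, ∀ j < k i, (∀ x ∈ S i j, 0 ≤ p i j x ∧ |x| ≤ (B : ℤ) * (b i : ℤ) ^ j) ∧ ∑ x ∈ S i j, p i j x = 1) →
        (∀ i, ∀ j ∈ J i, ∀ y : ℤ,
          ∑ x ∈ (S i j).filter (fun x => y ≤ x ∧ (B : ℤ) * (x - y) ≤ (b i : ℤ) ^ j), p i j x ≤ 1 - η) →
        Prob k S p (fun x => ¬ Right δ₀ ε m X D (fun i => c i + ∑ j, x i j)) ≤ 1 / Real.log X ^ U) ∧
      (∀ A : Fin s → ℕ → Finset ℕ, (∀ i, ∀ j < k i, (A i j).Nonempty ∧ ∀ a ∈ A i j, a < b i) →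
        (∀ i, ∀ j ∈ J i, 2 ≤ (A i j).card) →
        (((Fintype.piFinset fun i => withDigits (b i) (k i) (A i)).filter fun v =>
          ¬ Right δ₀ ε m X D (fun i => c i + (v i : ℤ))).card : ℝ) ≤
          (∏ i, ∏ j ∈ range (k i), ((A i j).card : ℝ)) / Real.log X ^ U) := by
  obtain ⟨δ₀, hδ₀, hlow⟩ := Pool.Agent.Q26.PD.low1 s D hD
  refine ⟨δ₀, hδ₀, fun b hb B R U η δ ε hB hη hδ hε => ?_⟩
  obtain ⟨X₀, h0⟩ := Pool.Agent.Q26.PD.lf_rand true s hs b hb B R hB η δ hη hδ D m U hD hm ε hε
  obtain ⟨X₁, h1⟩ := Pool.Agent.Q26.PD.lf_digits true s hs b hb B R hB δ hδ D m U hD hm ε hε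
  obtain ⟨X₂, hlow⟩ := hlow (B + B ^ 2)
  have hright : ∀ X, X₂ + 1 ≤ X → ∀ n : Fin s → ℤ, (∀ i, |n i| ≤ ((B + B ^ 2 : ℕ) : ℤ) * X) →
      Pool.Agent.Q26.PD.GoodL true ε m X D n ∧ Pool.Agent.Q26.PD.Nondeg D n → Right δ₀ ε m X D n := by
    intro X hX n hn hg d hd hadm
    obtain ⟨G, hG0, hG1, hG2⟩ := of_good ε m X D n (by omega) hg.1 d hd hadm
    refine ⟨G, ?_, hG1, hG2⟩
    refine hlow X (by omega) d n hd hn hg.2 ((adm_iff n d).2 hadm) G ?_
    rw [sing_eq]
    exact hG1
  refine ⟨X₀ + X₁ + X₂ + 1, fun X hX k hk J hJ c hc => ⟨fun S p hp hsp => ?_, fun A hA hAJ => ?_⟩⟩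
  · have h2 := h0 X (by omega) k hk J S p (fun i => ⟨(hJ i).lt, (hJ i).low, (hJ i).high, (hJ i).all⟩) hp
      (fun i j hj y => by rw [← sum_filter]; exact hsp i j hj y) c hc
    refine le_trans ?_ h2
    unfold Prob
    apply sum_le_sum
    intro x hx
    rw [Fintype.mem_piFinset] at hx
    have hx0 : 0 ≤ ∏ i, ∏ j : Fin (k i), p i j (x i j) := prod_nonneg fun i _ => prod_nonneg fun j _ =>
      ((hp i j j.2).1 _ (Fintype.mem_piFinset.1 (hx i) j)).1
    have habs : ∀ i, |c i + ∑ j, x i j| ≤ ((B + B ^ 2 : ℕ) : ℤ) * X := by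
      intro i
      have g1 : |∑ j : Fin (k i), x i j| ≤ ∑ j : Fin (k i), (B : ℤ) * (b i : ℤ) ^ (j : ℕ) :=
        (abs_sum_le_sum_abs _ _).trans (sum_le_sum fun j _ => ((hp i j j.2).1 _ (Fintype.mem_piFinset.1 (hx i) j)).2)
      rw [← mul_sum] at g1
      have g2 := Pool.Agent.Y885.geo_le (b i) (hb i) (k i)
      have g3 : (B : ℤ) * ∑ j : Fin (k i), (b i : ℤ) ^ (j : ℕ) ≤ (B : ℤ) * (b i : ℤ) ^ k i := mul_le_mul_of_nonneg_left g2 (by positivity)
      have g4 : (b i : ℤ) ^ k i ≤ (B : ℤ) * X := by exact_mod_cast (hk i).2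
      have g5 : (B : ℤ) * (b i : ℤ) ^ k i ≤ (B : ℤ) * ((B : ℤ) * X) := mul_le_mul_of_nonneg_left g4 (by positivity)
      have g6 := abs_add_le (c i) (∑ j, x i j)
      have g7 := hc i
      have g8 : ((B + B ^ 2 : ℕ) : ℤ) * X = (B : ℤ) * X + (B : ℤ) * ((B : ℤ) * X) := by push_cast; ring
      rw [g8]
      linarith
    by_cases hg : Pool.Agent.Q26.PD.GoodL true ε m X D (fun i => c i + ∑ j, x i j) ∧
        Pool.Agent.Q26.PD.Nondeg D (fun i => c i + ∑ j, x i j)
    · have := hright X (by omega) _ habs hg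
      rw [if_neg (not_not.2 this), if_neg (not_not.2 hg)]
    · rw [if_pos hg]
      split_ifs
      · exact le_rfl
      · exact hx0
  · refine le_trans ?_ (h1 X (by omega) k hk J A (fun i => ⟨(hJ i).lt, (hJ i).low, (hJ i).high, (hJ i).all⟩) hA hAJ c hc)
    apply Nat.cast_le.2
    apply card_le_card
    intro v hv
    rw [mem_filter] at hv ⊢
    refine ⟨hv.1, fun hg => hv.2 (hright X (by omega) _ (fun i => ?_) hg)⟩
    have hv1 := Fintype.mem_piFinset.1 hv.1 i
    unfold withDigits at hv1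
    rw [mem_filter, mem_range] at hv1
    have g1 : (v i : ℤ) ≤ (B : ℤ) * X := by exact_mod_cast hv1.1.le.trans (hk i).2
    have g2 := abs_add_le (c i) (v i : ℤ)
    rw [abs_of_nonneg (by positivity : (0 : ℤ) ≤ (v i : ℤ))] at g2
    have g3 := hc i
    have g4 : (B : ℤ) * X ≤ (B : ℤ) ^ 2 * X := by
      have : B * X ≤ B ^ 2 * X := Nat.mul_le_mul_right _ (Nat.le_self_pow (by norm_num) B)
      exact_mod_cast this
    have g5 : ((B + B ^ 2 : ℕ) : ℤ) * X = (B : ℤ) * X + (B : ℤ) ^ 2 * X := by push_cast; ring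
    rw [g5]
    linarith

end Pool.Agent.Results.MP_629a14_nt.RandomSumSystems
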